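import Mathlib

/-!
# Watanabe's bold conjecture fails over every field

Over every field `F`, the standard graded Artinian complete intersection
`A = F[x₀,…,x₄] / (x₀², x₁², x₂², x₃², x₄³ + x₀x₁(x₂ + x₃))`, of socle degree `6`, has no injective
`F`-algebra map to a complete intersection of quadrics of socle degree `6`.

Sketch.  A complete intersection of quadrics of socle degree `6` has six variables (Hilbert
functions of regular sequences depend only on the degrees).  Passing to linear parts one may assume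
that the map sends the `xᵢ` to linear forms; after a linear change of coordinates the ideal of the
target contains `x₀², x₁², x₂², x₃²` and is generated by these and two further quadrics
`w² + mw + a` and `lw + b`.  Expanding the cubic relation in powers of `w` shows that the cubic
`x₄³ + x₀x₁(x₂ + x₃)` is the product of a linear form and a quadric modulo the four squares, and
this is impossible: after replacing `x₄` by `a₀x₀ + … + a₃x₃`, it would give `6a₀a₁a₂ = -1`,
`6a₀a₁a₃ = -1` and `6a₀a₂a₃ = 0`.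
-/

open MvPolynomial

namespace Pool.Agent.Results.MP_ee4e20_al.BoldConjectureFalse

universe u

/-- The family `f` of `r` polynomials in `r` variables presents a standard graded Artinian complete
intersection over `F`: every `f i` is homogeneous, `f 0, …, f (r - 1)` is a regular sequence in
`F[x₀,…,x_{r-1}]` and the quotient by the ideal they generate is finite-dimensional over `F`. -/
def IsGradedCI {F : Type u} [Field F] {r : ℕ} (f : Fin r → MvPolynomial (Fin r) F) : Prop :=
  (∀ i, ∃ n, (f i).IsHomogeneous n) ∧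
    RingTheory.Sequence.IsRegular (MvPolynomial (Fin r) F) (List.ofFn f) ∧
    Module.Finite F (MvPolynomial (Fin r) F ⧸ Ideal.span (Set.range f))

/-- The graded algebra `A = F[x₀,…,x_{r-1}] / (f 0, …, f (r - 1))` has socle degree `d`: `d` is the
largest `n` such that `A_n ≠ 0`, that is, such that some homogeneous polynomial of degree `n` does
not lie in the ideal `(f 0, …, f (r - 1))`. -/
def HasSocleDegree {F : Type u} [Field F] {r : ℕ} (f : Fin r → MvPolynomial (Fin r) F) (d : ℕ) :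
    Prop :=
  IsGreatest {n : ℕ | ∃ p : MvPolynomial (Fin r) F, p.IsHomogeneous n ∧
    p ∉ Ideal.span (Set.range f)} d

/-- The five forms `x₀², x₁², x₂², x₃², x₄³ + x₀x₁(x₂ + x₃)` in `F[x₀,…,x₄]`. -/
noncomputable def family (F : Type u) [Field F] : Fin 5 → MvPolynomial (Fin 5) F :=
  ![X 0 ^ 2, X 1 ^ 2, X 2 ^ 2, X 3 ^ 2, X 4 ^ 3 + X 0 * X 1 * (X 2 + X 3)]

/-! ### Hilbert functions of regular sequences -/
variable {σ : Type*} {F : Type u} [Field F]

attribute [local instance] MvPolynomial.gradedAlgebra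


lemma hc_mul {q b : MvPolynomial σ F} {d : ℕ} (hq : q.IsHomogeneous d) (n : ℕ) :
    homogeneousComponent (n + d) (q * b) = q * homogeneousComponent n b := by
  conv_lhs => rw [← sum_homogeneousComponent b, Finset.mul_sum, map_sum]
  have h : ∀ i, homogeneousComponent (n + d) (q * homogeneousComponent i b) =
      if i = n then q * homogeneousComponent n b else 0 := by
    intro i
    have : (q * homogeneousComponent i b) ∈ homogeneousSubmodule σ F (d + i) :=
      hq.mul (homogeneousComponent_isHomogeneous i b)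
    rw [homogeneousComponent_of_mem this]
    split_ifs with h1 h2 h2
    · rw [h2]
    · omega
    · omega
    · rfl
  simp only [h]
  rw [Finset.sum_ite_eq']
  split_ifs with h1
  · rfl
  · simp only [Finset.mem_range, not_lt] at h1
    rw [homogeneousComponent_eq_zero _ _ (by omega), mul_zero]

lemma hc_self {p : MvPolynomial σ F} {n : ℕ} (hp : p.IsHomogeneous n) :
    homogeneousComponent n p = p := by
  rw [homogeneousComponent_of_mem hp]; simp

lemma hc_mul_lt {q b : MvPolynomial σ F} {d : ℕ} (hq : q.IsHomogeneous d) {n : ℕ} (hn : n < d) :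
    homogeneousComponent n (q * b) = 0 := by
  conv_lhs => rw [← sum_homogeneousComponent b, Finset.mul_sum, map_sum]
  apply Finset.sum_eq_zero
  intro i _
  have : (q * homogeneousComponent i b) ∈ homogeneousSubmodule σ F (d + i) :=
      hq.mul (homogeneousComponent_isHomogeneous i b)
  rw [homogeneousComponent_of_mem this, if_neg (by omega)]

/-- graded piece of an ideal -/
noncomputable def gr (I : Ideal (MvPolynomial σ F)) (n : ℕ) : Submodule F (MvPolynomial σ F) :=
  (I.restrictScalars F) ⊓ homogeneousSubmodule σ F n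

lemma mem_gr {I : Ideal (MvPolynomial σ F)} {n : ℕ} {p : MvPolynomial σ F} :
    p ∈ gr I n ↔ p ∈ I ∧ p.IsHomogeneous n := by
  simp [gr, Submodule.mem_inf, mem_homogeneousSubmodule]

instance finHom [Finite σ] (n : ℕ) : FiniteDimensional F (homogeneousSubmodule σ F n) :=
  Module.Finite.iff_fg.mpr (homogeneousSubmodule_fg (σ := σ) (R := F) n)

instance finGr [Finite σ] (I : Ideal (MvPolynomial σ F)) (n : ℕ) : FiniteDimensional F (gr I n) :=
  Submodule.finiteDimensional_of_le (inf_le_right)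

lemma gr_sup_add {I : Ideal (MvPolynomial σ F)} (hI : I.IsHomogeneous (homogeneousSubmodule σ F))
    {q : MvPolynomial σ F} {d : ℕ} (hq : q.IsHomogeneous d) (n : ℕ) :
    gr (I ⊔ Ideal.span {q}) (n + d) =
      gr I (n + d) ⊔ (homogeneousSubmodule σ F n).map (LinearMap.mulLeft F q) := by
  apply le_antisymm
  · intro x hx
    rw [mem_gr] at hx
    obtain ⟨hx, hxh⟩ := hx
    rw [Submodule.mem_sup] at hx
    obtain ⟨a, ha, b, hb, rfl⟩ := hx
    rw [Ideal.mem_span_singleton'] at hb
    obtain ⟨c, rfl⟩ := hb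
    rw [← hc_self hxh, map_add, mul_comm c q, hc_mul hq]
    apply Submodule.add_mem_sup
    · rw [mem_gr]
      exact ⟨homogeneousComponent_mem_of_mem hI ha _, homogeneousComponent_isHomogeneous _ _⟩
    · exact ⟨homogeneousComponent n c, homogeneousComponent_isHomogeneous _ _, rfl⟩
  · apply sup_le
    · intro x hx
      rw [mem_gr] at hx ⊢
      exact ⟨Ideal.mem_sup_left hx.1, hx.2⟩
    · rintro _ ⟨x, hx, rfl⟩
      rw [mem_gr]
      refine ⟨Ideal.mem_sup_right ?_, ?_⟩
      · rw [LinearMap.mulLeft_apply, Ideal.mem_span_singleton']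
        exact ⟨x, mul_comm _ _⟩
      · rw [LinearMap.mulLeft_apply, add_comm n d]
        exact hq.mul hx

lemma gr_sup_lt {I : Ideal (MvPolynomial σ F)} (hI : I.IsHomogeneous (homogeneousSubmodule σ F))
    {q : MvPolynomial σ F} {d : ℕ} (hq : q.IsHomogeneous d) {n : ℕ} (hn : n < d) :
    gr (I ⊔ Ideal.span {q}) n = gr I n := by
  apply le_antisymm
  · intro x hx
    rw [mem_gr] at hx
    obtain ⟨hx, hxh⟩ := hx
    rw [Submodule.mem_sup] at hx
    obtain ⟨a, ha, b, hb, rfl⟩ := hx
    rw [Ideal.mem_span_singleton'] at hb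
    obtain ⟨c, rfl⟩ := hb
    rw [← hc_self hxh, map_add, mul_comm c q, hc_mul_lt hq hn, add_zero]
    rw [mem_gr]
    exact ⟨homogeneousComponent_mem_of_mem hI ha _, homogeneousComponent_isHomogeneous _ _⟩
  · intro x hx
    rw [mem_gr] at hx ⊢
    exact ⟨Ideal.mem_sup_left hx.1, hx.2⟩

lemma gr_inf {I : Ideal (MvPolynomial σ F)}
    {q : MvPolynomial σ F} {d : ℕ} (hq : q.IsHomogeneous d)
    (hreg : ∀ p, q * p ∈ I → p ∈ I) (n : ℕ) :
    gr I (n + d) ⊓ (homogeneousSubmodule σ F n).map (LinearMap.mulLeft F q) =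
      (gr I n).map (LinearMap.mulLeft F q) := by
  apply le_antisymm
  · rintro _ ⟨hx, ⟨y, hy, rfl⟩⟩
    rw [SetLike.mem_coe, mem_gr] at hx
    exact ⟨y, mem_gr.mpr ⟨hreg y hx.1, hy⟩, rfl⟩
  · rintro _ ⟨y, hy, rfl⟩
    have hy' := mem_gr.mp hy
    refine ⟨mem_gr.mpr ⟨I.mul_mem_left _ hy'.1, ?_⟩, ⟨y, hy'.2, rfl⟩⟩
    rw [LinearMap.mulLeft_apply, add_comm n d]
    exact hq.mul hy'.2

lemma finrank_map_mul {q : MvPolynomial σ F} (hq0 : q ≠ 0) (S : Submodule F (MvPolynomial σ F)) :
    Module.finrank F (S.map (LinearMap.mulLeft F q)) = Module.finrank F S := by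
  have hinj : Function.Injective (LinearMap.mulLeft F q) := by
    intro a b hab
    simpa [hq0] using hab
  exact (Submodule.equivMapOfInjective _ hinj S).finrank_eq.symm

/-- the two term recursion for the Hilbert function -/
lemma finrank_gr_sup [Finite σ] {I : Ideal (MvPolynomial σ F)}
    (hI : I.IsHomogeneous (homogeneousSubmodule σ F))
    {q : MvPolynomial σ F} {d : ℕ} (hq : q.IsHomogeneous d) (hq0 : q ≠ 0)
    (hreg : ∀ p, q * p ∈ I → p ∈ I) (n : ℕ) :
    Module.finrank F (gr (I ⊔ Ideal.span {q}) (n + d)) + Module.finrank F (gr I n) =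
      Module.finrank F (gr I (n + d)) + Module.finrank F (homogeneousSubmodule σ F n) := by
  rw [gr_sup_add hI hq, ← finrank_map_mul hq0 (gr I n), ← gr_inf hq hreg,
    ← finrank_map_mul hq0 (homogeneousSubmodule σ F n)]
  have : FiniteDimensional F ((homogeneousSubmodule σ F n).map (LinearMap.mulLeft F q)) :=
    inferInstance
  exact Submodule.finrank_sup_add_finrank_inf_eq _ _

/-- the ideal generated by the first `k` members -/
noncomputable def idl (q : ℕ → MvPolynomial σ F) (k : ℕ) : Ideal (MvPolynomial σ F) :=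
  Ideal.span (q '' Set.Iio k)

lemma idl_zero (q : ℕ → MvPolynomial σ F) : idl q 0 = ⊥ := by
  simp [idl]

lemma idl_succ (q : ℕ → MvPolynomial σ F) (k : ℕ) : idl q (k + 1) = idl q k ⊔ Ideal.span {q k} := by
  rw [idl, idl, ← Ideal.span_union]
  congr 1
  ext x
  simp only [Set.mem_image, Set.mem_Iio, Set.union_singleton, Set.mem_insert_iff]
  constructor
  · rintro ⟨i, hi, rfl⟩
    rcases Nat.lt_succ_iff_lt_or_eq.mp hi with h | h
    · exact Or.inr ⟨i, h, rfl⟩
    · exact Or.inl (by rw [h])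
  · rintro (rfl | ⟨i, hi, rfl⟩)
    · exact ⟨k, Nat.lt_succ_self k, rfl⟩
    · exact ⟨i, Nat.lt_succ_of_lt hi, rfl⟩

lemma idl_mono (q : ℕ → MvPolynomial σ F) {k l : ℕ} (h : k ≤ l) : idl q k ≤ idl q l :=
  Ideal.span_mono (Set.image_mono (Set.Iio_subset_Iio h))

lemma idl_homog {q : ℕ → MvPolynomial σ F} {N : ℕ} {d : ℕ → ℕ}
    (hq : ∀ k < N, (q k).IsHomogeneous (d k)) {k : ℕ} (hk : k ≤ N) :
    (idl q k).IsHomogeneous (homogeneousSubmodule σ F) := by
  apply Ideal.homogeneous_span
  rintro _ ⟨i, hi, rfl⟩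
  exact ⟨d i, hq i (lt_of_lt_of_le hi hk)⟩

/-- equality of Hilbert functions for two regular sequences of the same degrees -/
lemma finrank_gr_eq [Finite σ] {q q' : ℕ → MvPolynomial σ F} {N : ℕ} {d : ℕ → ℕ}
    (hq : ∀ k < N, (q k).IsHomogeneous (d k)) (hq' : ∀ k < N, (q' k).IsHomogeneous (d k))
    (h0 : ∀ k < N, q k ≠ 0) (h0' : ∀ k < N, q' k ≠ 0)
    (hreg : ∀ k < N, ∀ p, q k * p ∈ idl q k → p ∈ idl q k)
    (hreg' : ∀ k < N, ∀ p, q' k * p ∈ idl q' k → p ∈ idl q' k) :
    ∀ k ≤ N, ∀ n, Module.finrank F (gr (idl q k) n) = Module.finrank F (gr (idl q' k) n) := by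
  intro k
  induction k with
  | zero => intro _ n; rw [idl_zero, idl_zero]
  | succ k ih =>
    intro hk n
    have hk' : k < N := hk
    have ih' := ih hk'.le
    rw [idl_succ, idl_succ]
    rcases lt_or_ge n (d k) with hn | hn
    · rw [gr_sup_lt (idl_homog hq hk'.le) (hq k hk') hn,
        gr_sup_lt (idl_homog hq' hk'.le) (hq' k hk') hn, ih' n]
    · obtain ⟨m, rfl⟩ := Nat.exists_eq_add_of_le' hn
      have e1 := finrank_gr_sup (idl_homog hq hk'.le) (hq k hk') (h0 k hk') (hreg k hk') m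
      have e2 := finrank_gr_sup (idl_homog hq' hk'.le) (hq' k hk') (h0' k hk') (hreg' k hk') m
      have e3 := ih' m
      have e4 := ih' (m + d k)
      omega


/-- extend a finite family by zero -/
noncomputable def ext0 {N : ℕ} (f : Fin N → MvPolynomial σ F) (k : ℕ) : MvPolynomial σ F :=
  if h : k < N then f ⟨k, h⟩ else 0

lemma ext0_of_lt {N : ℕ} (f : Fin N → MvPolynomial σ F) {k : ℕ} (h : k < N) :
    ext0 f k = f ⟨k, h⟩ := by simp [ext0, h]

lemma idl_ext0 {N : ℕ} (f : Fin N → MvPolynomial σ F) :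
    idl (ext0 f) N = Ideal.span (Set.range f) := by
  rw [idl]
  congr 1
  ext x
  constructor
  · rintro ⟨i, hi, rfl⟩
    exact ⟨⟨i, hi⟩, (ext0_of_lt f hi).symm⟩
  · rintro ⟨i, rfl⟩
    exact ⟨i, i.2, ext0_of_lt f i.2⟩

lemma ofList_take {N : ℕ} (f : Fin N → MvPolynomial σ F) {k : ℕ} (hk : k ≤ N) :
    Ideal.ofList ((List.ofFn f).take k) = idl (ext0 f) k := by
  rw [Ideal.ofList, idl]
  congr 1
  ext x
  simp only [Set.mem_ofPred_eq, Set.mem_image, Set.mem_Iio]
  rw [List.mem_take_iff_getElem]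
  constructor
  · rintro ⟨i, hi, rfl⟩
    have hi' : i < k := by
      have := lt_min_iff.mp hi; exact this.1
    refine ⟨i, hi', ?_⟩
    rw [ext0_of_lt f (hi'.trans_le hk)]
    simp
  · rintro ⟨i, hi, rfl⟩
    refine ⟨i, by simp; omega, ?_⟩
    rw [ext0_of_lt f (hi.trans_le hk)]
    simp

lemma isRegular_iff_idl {N : ℕ} (f : Fin N → MvPolynomial σ F) :
    RingTheory.Sequence.IsRegular (MvPolynomial σ F) (List.ofFn f) ↔
      (∀ k < N, ∀ p, ext0 f k * p ∈ idl (ext0 f) k → p ∈ idl (ext0 f) k) ∧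
        idl (ext0 f) N ≠ ⊤ := by
  rw [RingTheory.Sequence.isRegular_iff, RingTheory.Sequence.isWeaklyRegular_iff]
  have h1 : ∀ J : Ideal (MvPolynomial σ F), (J • ⊤ : Submodule (MvPolynomial σ F) (MvPolynomial σ F)) = J := by
    intro J; rw [smul_eq_mul, Ideal.mul_top]
  apply and_congr
  · simp only [List.length_ofFn]
    constructor
    · intro h k hk p hp
      have := h k hk
      rw [isSMulRegular_quotient_iff_mem_of_smul_mem] at this
      have h2 := this p
      rw [h1, ofList_take f hk.le] at h2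
      apply h2
      rw [ext0_of_lt f hk] at hp
      simpa using hp
    · intro h k hk
      rw [isSMulRegular_quotient_iff_mem_of_smul_mem]
      intro p hp
      rw [h1, ofList_take f hk.le] at hp ⊢
      apply h k hk
      rw [ext0_of_lt f hk]
      simpa using hp
  · rw [h1]
    have h3 := ofList_take f (le_refl N)
    rw [List.take_of_length_le (by simp)] at h3
    rw [h3]
    exact ⟨fun h => h.symm, fun h => h.symm⟩


lemma mem_idl_sq {N : ℕ} {q : ℕ → MvPolynomial (Fin N) F} {k : ℕ} (hk : k ≤ N)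
    (hq : ∀ i (h : i < N), i < k → q i = X ⟨i, h⟩ ^ 2) {p : MvPolynomial (Fin N) F} :
    p ∈ idl q k ↔ ∀ m ∈ p.support, ∃ i : Fin N, (i : ℕ) < k ∧ 2 ≤ m i := by
  have h : idl q k = Ideal.span ((fun s => monomial s (1 : F)) ''
      ((fun i : Fin N => Finsupp.single i 2) '' {i | (i : ℕ) < k})) := by
    rw [idl]
    congr 1
    ext x
    constructor
    · rintro ⟨i, hi, rfl⟩
      have hi' : i < k := hi
      refine ⟨_, ⟨⟨i, hi'.trans_le hk⟩, hi', rfl⟩, ?_⟩
      rw [hq i (hi'.trans_le hk) hi', X_pow_eq_monomial]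
    · rintro ⟨_, ⟨i, hi, rfl⟩, rfl⟩
      refine ⟨i, hi, ?_⟩
      rw [hq i i.2 hi, X_pow_eq_monomial]
  rw [h, mem_ideal_span_monomial_image]
  constructor
  · intro h m hm
    obtain ⟨_, ⟨i, hi, rfl⟩, hle⟩ := h m hm
    refine ⟨i, hi, ?_⟩
    have := hle i
    simpa using this
  · intro h m hm
    obtain ⟨i, hi, hle⟩ := h m hm
    refine ⟨_, ⟨i, hi, rfl⟩, ?_⟩
    rw [Finsupp.single_le_iff]
    exact hle

lemma sq_reg {N : ℕ} {q : ℕ → MvPolynomial (Fin N) F} {k : ℕ} (hk : k < N)
    (hq : ∀ i (h : i < N), i < k + 1 → q i = X ⟨i, h⟩ ^ 2) (p : MvPolynomial (Fin N) F)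
    (hp : q k * p ∈ idl q k) : p ∈ idl q k := by
  have hq' : ∀ i (h : i < N), i < k → q i = X ⟨i, h⟩ ^ 2 := fun i h hi => hq i h (by omega)
  rw [mem_idl_sq hk.le hq'] at hp ⊢
  rw [hq k hk (Nat.lt_succ_self k), X_pow_eq_monomial] at hp
  intro m hm
  have hm' : m + Finsupp.single ⟨k, hk⟩ 2 ∈
      (monomial (Finsupp.single (⟨k, hk⟩ : Fin N) 2) (1 : F) * p).support := by
    rw [mem_support_iff, coeff_monomial_mul', if_pos (by simp), add_tsub_cancel_right, one_mul]
    rwa [mem_support_iff] at hm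
  obtain ⟨i, hi, h2⟩ := hp _ hm'
  refine ⟨i, hi, ?_⟩
  have hne : i ≠ ⟨k, hk⟩ := by
    rintro rfl
    exact lt_irrefl _ hi
  simpa [hne.symm, Finsupp.single_apply] using h2

/-- the squares of the variables form a regular sequence -/
lemma squares_regular (N : ℕ) :
    (∀ k < N, ∀ p, ext0 (fun i : Fin N => (X i ^ 2 : MvPolynomial (Fin N) F)) k * p ∈
        idl (ext0 (fun i : Fin N => (X i ^ 2 : MvPolynomial (Fin N) F))) k →
      p ∈ idl (ext0 (fun i : Fin N => (X i ^ 2 : MvPolynomial (Fin N) F))) k) := by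
  intro k hk p hp
  exact sq_reg hk (fun i h _ => ext0_of_lt _ h) p hp


lemma gr_eq_iff [Finite σ] (I : Ideal (MvPolynomial σ F)) (n : ℕ) :
    (∀ p : MvPolynomial σ F, p.IsHomogeneous n → p ∈ I) ↔
      Module.finrank F (gr I n) = Module.finrank F (homogeneousSubmodule σ F n) := by
  constructor
  · intro h
    have : gr I n = homogeneousSubmodule σ F n := by
      apply le_antisymm inf_le_right
      intro p hp
      exact mem_gr.mpr ⟨h p hp, hp⟩
    rw [this]
  · intro h p hp
    have : gr I n = homogeneousSubmodule σ F n :=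
      Submodule.eq_of_le_of_finrank_eq inf_le_right h
    have hp' : p ∈ gr I n := by rw [this]; exact hp
    exact (mem_gr.mp hp').1

lemma socle_squares (N n : ℕ) :
    (∀ p : MvPolynomial (Fin N) F, p.IsHomogeneous n →
      p ∈ idl (ext0 (fun i : Fin N => (X i ^ 2 : MvPolynomial (Fin N) F))) N) ↔ N < n := by
  constructor
  · intro h
    by_contra hn
    push Not at hn
    obtain ⟨T, hT⟩ : ∃ T : Finset (Fin N), T.card = n := by
      obtain ⟨T, _, hT⟩ := Finset.exists_subset_card_eq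
        (s := (Finset.univ : Finset (Fin N))) (n := n) (by simpa using hn)
      exact ⟨T, hT⟩
    set m : Fin N →₀ ℕ := Finsupp.indicator T (fun _ _ => 1) with hm
    have hdeg : m.degree = n := by
      rw [Finsupp.degree_eq_sum]
      simp only [hm, Finsupp.indicator_apply]
      rw [← hT]
      simp
    have h1 := h (monomial m 1) (isHomogeneous_monomial 1 hdeg)
    rw [mem_idl_sq (le_refl N) (fun i h _ => ext0_of_lt _ h)] at h1
    obtain ⟨i, _, h2⟩ := h1 m (by rw [mem_support_iff, coeff_monomial, if_pos rfl]; exact one_ne_zero)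
    simp only [hm, Finsupp.indicator_apply] at h2
    split_ifs at h2 <;> omega
  · intro hn p hp
    rw [mem_idl_sq (le_refl N) (fun i h _ => ext0_of_lt _ h)]
    intro m hm
    by_contra hcon
    push Not at hcon
    have hdeg : m.degree = n := by
      by_contra hne
      rw [mem_support_iff] at hm
      exact hm (hp.coeff_eq_zero hne)
    rw [Finsupp.degree_eq_sum] at hdeg
    have : ∑ i, m i ≤ ∑ _i : Fin N, 1 := Finset.sum_le_sum (fun i _ => by
      have := hcon i i.2; omega)
    simp at this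
    omega

/-- a complete intersection of `N` quadrics in `N` variables is nonzero exactly in degrees `≤ N` -/
lemma quad_ci {N : ℕ} {Q : Fin N → MvPolynomial (Fin N) F} (hQ : ∀ i, (Q i).IsHomogeneous 2)
    (hreg : RingTheory.Sequence.IsRegular (MvPolynomial (Fin N) F) (List.ofFn Q)) (n : ℕ) :
    (∀ p : MvPolynomial (Fin N) F, p.IsHomogeneous n → p ∈ Ideal.span (Set.range Q)) ↔ N < n := by
  rw [← socle_squares (F := F) N n, ← idl_ext0, gr_eq_iff, gr_eq_iff]
  rw [isRegular_iff_idl] at hreg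
  obtain ⟨hreg, htop⟩ := hreg
  rw [finrank_gr_eq (q := ext0 Q) (q' := ext0 (fun i : Fin N => (X i ^ 2 : MvPolynomial (Fin N) F)))
    (N := N) (d := fun _ => 2)]
  · intro k hk; rw [ext0_of_lt _ hk]; exact hQ _
  · intro k hk; rw [ext0_of_lt _ hk]; exact isHomogeneous_X_pow _ _
  · intro k hk h0
    have := hreg k hk 1 (by rw [h0, zero_mul]; exact Ideal.zero_mem _)
    apply htop
    rw [Ideal.eq_top_iff_one]
    exact idl_mono _ hk.le this
  · intro k hk; rw [ext0_of_lt _ hk]; exact pow_ne_zero _ (X_ne_zero _)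
  · exact hreg
  · exact squares_regular N
  · exact le_refl N

/-! ### The cubic is not a product modulo the squares -/
lemma eps_step (F K : Type u) [Field F] [CommRing K] [Algebra F K] :
    ∃ (K' : Type u) (_ : CommRing K') (_ : Algebra F K') (i : K →ₐ[F] K') (e : K'),
      e ^ 2 = 0 ∧ ∀ x, i x * e = 0 → x = 0 := by
  refine ⟨DualNumber K, inferInstance, inferInstance, TrivSqZeroExt.inlAlgHom F K K, DualNumber.eps, ?_, ?_⟩
  · rw [sq, DualNumber.eps_mul_eps]
  · intro x hx
    have := congrArg TrivSqZeroExt.snd hx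
    simpa using this

lemma exists_eps (F : Type u) [Field F] : ∃ (K : Type u) (_ : CommRing K) (_ : Algebra F K) (e1 e2 e3 : K),
    e1 ^ 2 = 0 ∧ e2 ^ 2 = 0 ∧ e3 ^ 2 = 0 ∧
      ∀ c : F, algebraMap F K c * (e1 * e2 * e3) = 0 → c = 0 := by
  obtain ⟨K1, _, _, i1, e1, h1, g1⟩ := eps_step F F
  obtain ⟨K2, _, _, i2, e2, h2, g2⟩ := eps_step F K1
  obtain ⟨K3, _, _, i3, e3, h3, g3⟩ := eps_step F K2
  refine ⟨K3, inferInstance, inferInstance, i3 (i2 e1), i3 e2, e3, ?_, ?_, h3, ?_⟩
  · rw [← map_pow, ← map_pow, h1, map_zero, map_zero]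
  · rw [← map_pow, h2, map_zero]
  · intro c hc
    apply g1 c
    apply g2
    apply g3
    rw [← hc]
    simp only [map_mul]
    have : i1 c = algebraMap F K1 c := by
      have := i1.commutes c
      simpa using this
    rw [this, AlgHom.commutes, AlgHom.commutes]
    ring

lemma cube_eps {K : Type*} [CommRing K] {e1 e2 e3 : K} (h1 : e1 ^ 2 = 0) (h2 : e2 ^ 2 = 0)
    (h3 : e3 ^ 2 = 0) (a b c : K) :
    (a * e1 + b * e2 + c * e3) ^ 3 = 6 * a * b * c * (e1 * e2 * e3) := by
  linear_combination (a^3*e1+3*a^2*b*e2+3*a^2*c*e3) * h1 + (3*a*b^2*e1+b^3*e2+3*b^2*c*e3) * h2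
    + (3*a*c^2*e1+3*b*c^2*e2+c^3*e3) * h3

/-- the cubic -/
noncomputable def cubic (F : Type u) [Field F] : MvPolynomial (Fin 5) F :=
  X 4 ^ 3 + X 0 * X 1 * (X 2 + X 3)

/-- the ideal of the four squares in five variables -/
noncomputable def sqI (F : Type u) [Field F] : Ideal (MvPolynomial (Fin 5) F) :=
  Ideal.span {X 0 ^ 2, X 1 ^ 2, X 2 ^ 2, X 3 ^ 2}

lemma sqI_le_ker {K : Type*} [CommRing K] [Algebra F K] (e : Fin 5 → K)
    (h0 : e 0 ^ 2 = 0) (h1 : e 1 ^ 2 = 0) (h2 : e 2 ^ 2 = 0) (h3 : e 3 ^ 2 = 0)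
    {p : MvPolynomial (Fin 5) F} (hp : p ∈ sqI F) : aeval e p = 0 := by
  have : sqI F ≤ RingHom.ker (aeval e : MvPolynomial (Fin 5) F →ₐ[F] K) := by
    rw [sqI, Ideal.span_le]
    rintro x (rfl | rfl | rfl | rfl) <;> simp [RingHom.mem_ker, *]
  exact this hp

lemma K_aux {K : Type*} [CommRing K] [Algebra F K] (e : Fin 5 → K)
    (h0 : e 0 ^ 2 = 0) (h1 : e 1 ^ 2 = 0) (h2 : e 2 ^ 2 = 0) (h3 : e 3 ^ 2 = 0)
    {l q : MvPolynomial (Fin 5) F} (hlq : cubic F - l * q ∈ sqI F)
    (hl : aeval e l = 0) : e 4 ^ 3 + e 0 * e 1 * (e 2 + e 3) = 0 := by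
  have := sqI_le_ker e h0 h1 h2 h3 hlq
  simpa [cubic, hl] using this

/-- the cubic is not a product of a linear form and something modulo the squares -/
lemma cubic_not_prod {l q : MvPolynomial (Fin 5) F} (hl : l.IsHomogeneous 1)
    (hlq : cubic F - l * q ∈ sqI F) : False := by
  obtain ⟨c, hc⟩ : ∃ c : Fin 5 → F, ∑ i, c i • (X i : MvPolynomial (Fin 5) F) = l := by
    have : l ∈ homogeneousSubmodule (Fin 5) F 1 := hl
    rw [homogeneousSubmodule_one_eq_span_X] at this
    exact (Submodule.mem_span_range_iff_exists_fun F).mp this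
  have hc4 : c 4 ≠ 0 := by
    intro hc4
    have := sqI_le_ker (K := Polynomial F) (fun i => if i = 4 then Polynomial.X else 0)
      (by simp) (by simp) (by simp) (by simp) hlq
    rw [← hc] at this
    simp [cubic, Fin.sum_univ_succ, hc4] at this
  obtain ⟨K, _, _, e1, e2, e3, h1, h2, h3, hne⟩ := exists_eps F
  set a : Fin 5 → F := fun i => - c i / c 4 with ha
  have key : ∀ e : Fin 5 → K, e 4 = algebraMap F K (a 0) * e 0 + algebraMap F K (a 1) * e 1
      + algebraMap F K (a 2) * e 2 + algebraMap F K (a 3) * e 3 → aeval e l = 0 := by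
    intro e he
    rw [← hc]
    simp only [Fin.sum_univ_five, map_add, map_smul, aeval_X]
    simp only [he, Algebra.smul_def, ha]
    have h4 : ∀ i, algebraMap F K (c 4) * algebraMap F K (-c i / c 4) = - algebraMap F K (c i) := by
      intro i
      rw [← map_mul, ← map_neg]
      congr 1
      field_simp
    linear_combination (e 0) * h4 0 + (e 1) * h4 1 + (e 2) * h4 2 + (e 3) * h4 3
  have E1 : 6 * a 0 * a 1 * a 2 + 1 = 0 := by
    have := K_aux ![e1, e2, e3, 0, algebraMap F K (a 0) * e1 + algebraMap F K (a 1) * e2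
      + algebraMap F K (a 2) * e3] (by simpa using h1) (by simpa using h2) (by simpa using h3)
      (by simp) hlq (key _ (by simp))
    simp at this
    rw [cube_eps h1 h2 h3] at this
    apply hne
    rw [← this]
    simp only [map_add, map_mul, map_ofNat, map_one]
    ring
  have E2 : 6 * a 0 * a 1 * a 3 + 1 = 0 := by
    have := K_aux ![e1, e2, 0, e3, algebraMap F K (a 0) * e1 + algebraMap F K (a 1) * e2
      + algebraMap F K (a 3) * e3] (by simpa using h1) (by simpa using h2) (by simp)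
      (by simpa using h3) hlq (key _ (by simp))
    simp at this
    rw [cube_eps h1 h2 h3] at this
    apply hne
    rw [← this]
    simp only [map_add, map_mul, map_ofNat, map_one]
    ring
  have E3 : 6 * a 0 * a 2 * a 3 = 0 := by
    have := K_aux ![e1, 0, e2, e3, algebraMap F K (a 0) * e1 + algebraMap F K (a 2) * e2
      + algebraMap F K (a 3) * e3] (by simpa using h1) (by simp) (by simpa using h2)
      (by simpa using h3) hlq (key _ (by simp))
    simp at this
    rw [cube_eps h1 h2 h3] at this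
    apply hne
    rw [← this]
    simp only [map_mul, map_ofNat]
  have h5 : (6 * a 0 * a 1 * a 2) * (6 * a 0 * a 1 * a 3) = (6 * a 0 * a 2 * a 3) * (6 * a 0 * a 1 * a 1) := by
    ring
  rw [E3, zero_mul] at h5
  have h6 : (6 * a 0 * a 1 * a 2) = -1 := by linear_combination E1
  have h7 : (6 * a 0 * a 1 * a 3) = -1 := by linear_combination E2
  rw [h6, h7] at h5
  norm_num at h5

/-! ### Two extra quadrics -/
lemma exists_coeffs {σ : Type*} {n k d : ℕ} {G : Fin n → MvPolynomial σ F} (hG : ∀ i, (G i).IsHomogeneous d)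
    {p : MvPolynomial σ F} (hp : p ∈ Ideal.span (Set.range G)) (hph : p.IsHomogeneous (k + d)) :
    ∃ L : Fin n → MvPolynomial σ F, (∀ i, (L i).IsHomogeneous k) ∧ p = ∑ i, L i * G i := by
  rw [Ideal.mem_span_range_iff_exists_fun] at hp
  obtain ⟨c, hc⟩ := hp
  refine ⟨fun i => homogeneousComponent k (c i), fun i => homogeneousComponent_isHomogeneous _ _, ?_⟩
  rw [← hc_self hph, ← hc, map_sum]
  refine Finset.sum_congr rfl fun i _ => ?_
  rw [mul_comm, hc_mul (hG i), mul_comm]

/-- coefficient of `X 0 ^ 2` -/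
noncomputable def kap : MvPolynomial (Fin 6) F →ₗ[F] F := lcoeff F (Finsupp.single 0 2)

/-- the four squares -/
noncomputable def sq4 (F : Type u) [Field F] : Fin 4 → MvPolynomial (Fin 6) F :=
  fun i => X (Fin.castSucc i).succ ^ 2

lemma sq4_li : LinearIndependent F (sq4 F) := by
  have h := (basisMonomials (Fin 6) F).linearIndependent
  have h2 : LinearIndependent F ((basisMonomials (Fin 6) F) ∘
      (fun i : Fin 4 => Finsupp.single (Fin.castSucc i).succ 2)) := by
    apply h.comp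
    intro i j hij
    have := Finsupp.single_left_injective (by norm_num : (2:ℕ) ≠ 0) hij
    simpa using this
  convert h2 using 1
  ext1 i
  simp [sq4, X_pow_eq_monomial]

lemma kap_sq4 (i : Fin 4) : kap (sq4 F i) = 0 := by
  rw [kap, sq4, X_pow_eq_monomial]
  simp only [lcoeff_apply, coeff_monomial]
  rw [if_neg]
  intro h
  have := Finsupp.single_left_injective (by norm_num : (2:ℕ) ≠ 0) h
  exact Fin.succ_ne_zero _ this

lemma two_quadrics {Q : Fin 6 → MvPolynomial (Fin 6) F} (hQ : ∀ i, (Q i).IsHomogeneous 2)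
    (hsq : ∀ i, sq4 F i ∈ Ideal.span (Set.range Q)) (hk : ∃ j, kap (Q j) ≠ 0) :
    ∃ P P' : MvPolynomial (Fin 6) F, P.IsHomogeneous 2 ∧ P'.IsHomogeneous 2 ∧ kap P = 1 ∧
      kap P' = 0 ∧ ∀ j, Q j ∈ Ideal.span (Set.range ![sq4 F 0, sq4 F 1, sq4 F 2, sq4 F 3, P, P']) := by
  set V := Submodule.span F (Set.range Q) with hV
  have hVhom : V ≤ homogeneousSubmodule (Fin 6) F 2 := by
    rw [hV, Submodule.span_le]
    rintro _ ⟨i, rfl⟩
    exact hQ i
  have hVfin : Module.finrank F V ≤ 6 := by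
    have := finrank_range_le_card (R := F) Q
    simpa [Set.finrank] using this
  have : FiniteDimensional F V := FiniteDimensional.span_of_finite F (Set.finite_range Q)
  have hsqV : ∀ i, sq4 F i ∈ V := by
    intro i
    obtain ⟨L, hL, hL2⟩ := exists_coeffs (k := 0) hQ (hsq i) (by
      simpa [sq4] using isHomogeneous_X_pow (R := F) (Fin.castSucc i).succ 2)
    rw [hL2]
    apply Submodule.sum_mem
    intro j _
    have : L j = C (coeff 0 (L j)) := by
      rw [← homogeneousComponent_zero, hc_self (hL j)]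
    rw [this, ← smul_eq_C_mul]
    exact Submodule.smul_mem _ _ (Submodule.subset_span ⟨j, rfl⟩)
  obtain ⟨j0, hj0⟩ := hk
  have hj0V : Q j0 ∈ V := Submodule.subset_span ⟨j0, rfl⟩
  set V' := V ⊓ LinearMap.ker (kap (F := F)) with hV'
  set W := Submodule.span F (Set.range (sq4 F)) with hW
  have hWV' : W ≤ V' := by
    rw [hW, Submodule.span_le]
    rintro _ ⟨i, rfl⟩
    exact ⟨hsqV i, kap_sq4 i⟩
  have hWfin : Module.finrank F W = 4 := by
    rw [hW, finrank_span_eq_card sq4_li]; simp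
  have hV'fin : Module.finrank F V' ≤ 5 := by
    have : V' < V := by
      refine lt_of_le_of_ne inf_le_left ?_
      intro h
      have : Q j0 ∈ V' := by rw [h]; exact hj0V
      exact hj0 this.2
    have := Submodule.finrank_lt_finrank_of_lt this
    omega
  have : FiniteDimensional F V' := Submodule.finiteDimensional_of_le (inf_le_left : V' ≤ V)
  obtain ⟨P', hP'V', hP'⟩ : ∃ P' ∈ V', V' ≤ W ⊔ Submodule.span F {P'} := by
    by_cases hle : V' ≤ W
    · exact ⟨0, Submodule.zero_mem _, le_sup_of_le_left hle⟩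
    · obtain ⟨P', hP', hP'W⟩ := SetLike.not_le_iff_exists.mp hle
      refine ⟨P', hP', ?_⟩
      have h1 : W ⊔ Submodule.span F {P'} ≤ V' := by
        apply sup_le hWV'
        rw [Submodule.span_singleton_le_iff_mem]
        exact hP'
      have : FiniteDimensional F (W ⊔ Submodule.span F {P'} : Submodule F (MvPolynomial (Fin 6) F)) :=
        Submodule.finiteDimensional_of_le h1
      have h2 : W < W ⊔ Submodule.span F {P'} := by
        refine lt_of_le_of_ne le_sup_left ?_
        intro h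
        apply hP'W
        rw [h]
        exact Submodule.mem_sup_right (Submodule.mem_span_singleton_self _)
      have h3 := Submodule.finrank_lt_finrank_of_lt h2
      have h4 := Submodule.eq_of_le_of_finrank_le h1 (by omega)
      exact h4.ge
  refine ⟨(kap (Q j0))⁻¹ • Q j0, P', ?_, hVhom hP'V'.1, ?_, hP'V'.2, ?_⟩
  · exact (homogeneousSubmodule (Fin 6) F 2).smul_mem _ (hQ j0)
  · rw [map_smul, smul_eq_mul, inv_mul_cancel₀ hj0]
  · set P := (kap (Q j0))⁻¹ • Q j0 with hP
    set I := Ideal.span (Set.range ![sq4 F 0, sq4 F 1, sq4 F 2, sq4 F 3, P, P']) with hI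
    have hWI : W ≤ I.restrictScalars F := by
      rw [hW, Submodule.span_le]
      rintro _ ⟨i, rfl⟩
      apply Ideal.subset_span
      fin_cases i
      · exact ⟨0, rfl⟩
      · exact ⟨1, rfl⟩
      · exact ⟨2, rfl⟩
      · exact ⟨3, rfl⟩
    have hPI : P ∈ I := Ideal.subset_span ⟨4, rfl⟩
    have hP'I : P' ∈ I := Ideal.subset_span ⟨5, rfl⟩
    intro j
    have hmem : Q j - (kap (Q j)) • P ∈ V' := by
      refine ⟨?_, ?_⟩
      · apply V.sub_mem (Submodule.subset_span ⟨j, rfl⟩)
        exact V.smul_mem _ (V.smul_mem _ hj0V)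
      · rw [SetLike.mem_coe, LinearMap.mem_ker, map_sub, map_smul, hP, map_smul, smul_eq_mul, smul_eq_mul,
          inv_mul_cancel₀ hj0, mul_one, sub_self]
    have hmem2 := hP' hmem
    have hle : W ⊔ Submodule.span F {P'} ≤ I.restrictScalars F := by
      apply sup_le hWI
      rw [Submodule.span_singleton_le_iff_mem]
      exact hP'I
    have hmem3 : Q j - (kap (Q j)) • P ∈ I := hle hmem2
    have : Q j = (Q j - (kap (Q j)) • P) + C (kap (Q j)) * P := by
      rw [← smul_eq_C_mul]; ring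
    rw [this]
    exact I.add_mem hmem3 (I.mul_mem_left _ hPI)

/-! ### The main computation in coordinates -/
lemma hom_zero_eq {σ : Type*} {p : MvPolynomial σ F} (hp : p.IsHomogeneous 0) : p = C (coeff 0 p) := by
  rw [← homogeneousComponent_zero, hc_self hp]

lemma fs_coeff_big {n : ℕ} {p : MvPolynomial (Fin (n + 1)) F} {d : ℕ} (hp : p.IsHomogeneous d) {i : ℕ}
    (hi : d < i) : (finSuccEquiv F n p).coeff i = 0 := by
  ext m
  rw [finSuccEquiv_coeff_coeff, coeff_zero]
  by_contra h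
  have := hp h
  rw [Finsupp.weight_apply] at this
  simp only [Pi.one_apply, smul_eq_mul, mul_one, Finsupp.sum_cons] at this
  omega

lemma fs_lin {n : ℕ} {p : MvPolynomial (Fin (n + 1)) F} (hp : p.IsHomogeneous 1) :
    ∃ (u : MvPolynomial (Fin n) F) (v : F), u.IsHomogeneous 1 ∧
      finSuccEquiv F n p = Polynomial.C u + Polynomial.C (C v) * Polynomial.X := by
  refine ⟨(finSuccEquiv F n p).coeff 0, coeff 0 ((finSuccEquiv F n p).coeff 1),
    hp.finSuccEquiv_coeff_isHomogeneous 0 1 rfl, ?_⟩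
  rw [← hom_zero_eq (hp.finSuccEquiv_coeff_isHomogeneous 1 0 rfl)]
  refine Polynomial.ext fun i => ?_
  match i with
  | 0 => simp
  | 1 => simp
  | (k + 2) =>
    rw [fs_coeff_big hp (by omega)]
    simp [Polynomial.coeff_X, Polynomial.coeff_C]

lemma fs_quad {p : MvPolynomial (Fin 6) F} (hp : p.IsHomogeneous 2) :
    ∃ (a m : MvPolynomial (Fin 5) F), a.IsHomogeneous 2 ∧ m.IsHomogeneous 1 ∧
      finSuccEquiv F 5 p = Polynomial.C a + Polynomial.C m * Polynomial.X +
        Polynomial.C (C (kap p)) * Polynomial.X ^ 2 := by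
  refine ⟨(finSuccEquiv F 5 p).coeff 0, (finSuccEquiv F 5 p).coeff 1,
    hp.finSuccEquiv_coeff_isHomogeneous 0 2 rfl, hp.finSuccEquiv_coeff_isHomogeneous 1 1 rfl, ?_⟩
  have hk : (C (kap p) : MvPolynomial (Fin 5) F) = (finSuccEquiv F 5 p).coeff 2 := by
    rw [hom_zero_eq (hp.finSuccEquiv_coeff_isHomogeneous 2 0 rfl), finSuccEquiv_coeff_coeff]
    congr 1
    rw [kap, lcoeff_apply]
    congr 1
    ext i
    refine Fin.cases ?_ (fun j => ?_) i
    · simp
    · simp [Finsupp.single_apply, (Fin.succ_ne_zero j).symm]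
  rw [hk]
  refine Polynomial.ext fun i => ?_
  match i with
  | 0 => simp
  | 1 => simp [Polynomial.coeff_C]
  | 2 => simp [Polynomial.coeff_X, Polynomial.coeff_C]
  | (k + 3) =>
    rw [fs_coeff_big hp (by omega)]
    simp [Polynomial.coeff_X, Polynomial.coeff_C, Polynomial.coeff_X_pow]

lemma exists_kap {Q : Fin 6 → MvPolynomial (Fin 6) F} (hQ : ∀ i, (Q i).IsHomogeneous 2)
    (hnil : X 0 ^ 7 ∈ Ideal.span (Set.range Q)) : ∃ j, kap (Q j) ≠ 0 := by
  by_contra hcon
  push Not at hcon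
  set ψ : MvPolynomial (Fin 6) F →+* Polynomial F :=
    (Polynomial.mapRingHom constantCoeff).comp
      (finSuccEquiv F 5 : MvPolynomial (Fin 6) F →+* Polynomial (MvPolynomial (Fin 5) F)) with hψ
  have h1 : Ideal.span (Set.range Q) ≤ RingHom.ker ψ := by
    rw [Ideal.span_le]
    rintro _ ⟨j, rfl⟩
    obtain ⟨a, m, ha, hm, h⟩ := fs_quad (hQ j)
    rw [hcon j] at h
    rw [SetLike.mem_coe, RingHom.mem_ker, hψ]
    simp only [RingHom.coe_comp, RingHom.coe_coe, Function.comp_apply, h]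
    have ha0 : constantCoeff a = 0 := by
      rw [constantCoeff_eq]
      exact ha.coeff_eq_zero (by simp)
    have hm0 : constantCoeff m = 0 := by
      rw [constantCoeff_eq]
      exact hm.coeff_eq_zero (by simp)
    simp [ha0, hm0]
  have h2 : ψ (X 0 ^ 7) = 0 := h1 hnil
  rw [hψ] at h2
  simp [finSuccEquiv_X_zero] at h2

lemma four_coeffs {R : Type*} [CommRing R] {f c0 c1 c2 c3 : R}
    (h : Polynomial.C f = Polynomial.C c0 + Polynomial.C c1 * Polynomial.X +
      Polynomial.C c2 * Polynomial.X ^ 2 + Polynomial.C c3 * Polynomial.X ^ 3) :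
    f = c0 ∧ c1 = 0 ∧ c2 = 0 ∧ c3 = 0 := by
  refine ⟨?_, ?_, ?_, ?_⟩
  · have := congrArg (fun p => Polynomial.coeff p 0) h
    simpa using this
  · have := congrArg (fun p => Polynomial.coeff p 1) h
    simpa [Polynomial.coeff_C] using this.symm
  · have := congrArg (fun p => Polynomial.coeff p 2) h
    simpa [Polynomial.coeff_C, Polynomial.coeff_X] using this.symm
  · have := congrArg (fun p => Polynomial.coeff p 3) h
    simpa [Polynomial.coeff_C, Polynomial.coeff_X] using this.symm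

/-- the heart of the matter, in coordinates -/
lemma no_quadrics {Q : Fin 6 → MvPolynomial (Fin 6) F} (hQ : ∀ i, (Q i).IsHomogeneous 2)
    (hsq : ∀ i, sq4 F i ∈ Ideal.span (Set.range Q))
    (hcub : X 5 ^ 3 + X 1 * X 2 * (X 3 + X 4) ∈ Ideal.span (Set.range Q))
    (hnil : X 0 ^ 7 ∈ Ideal.span (Set.range Q)) : False := by
  obtain ⟨P, P', hP, hP', hkP, hkP', hspan⟩ := two_quadrics hQ hsq (exists_kap hQ hnil)
  set G : Fin 6 → MvPolynomial (Fin 6) F := ![sq4 F 0, sq4 F 1, sq4 F 2, sq4 F 3, P, P'] with hG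
  have hle : Ideal.span (Set.range Q) ≤ Ideal.span (Set.range G) := by
    rw [Ideal.span_le]
    rintro _ ⟨j, rfl⟩
    exact hspan j
  have hsqh : ∀ i, (sq4 F i).IsHomogeneous 2 := fun i => isHomogeneous_X_pow _ _
  have hGh : ∀ i, (G i).IsHomogeneous 2 := by
    intro i
    fin_cases i
    · exact hsqh 0
    · exact hsqh 1
    · exact hsqh 2
    · exact hsqh 3
    · exact hP
    · exact hP'
  have hcubh : (X 5 ^ 3 + X 1 * X 2 * (X 3 + X 4) : MvPolynomial (Fin 6) F).IsHomogeneous (1 + 2) := by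
    apply IsHomogeneous.add
    · exact isHomogeneous_X_pow _ _
    · exact ((isHomogeneous_X _ _).mul (isHomogeneous_X _ _)).mul
        ((isHomogeneous_X _ _).add (isHomogeneous_X _ _))
  obtain ⟨L, hL, hcub2⟩ := exists_coeffs hGh (hle hcub) hcubh
  choose u v hu huv using fun i => fs_lin (hL i)
  obtain ⟨a, m, ha, hm, hPe⟩ := fs_quad hP
  obtain ⟨b, l, hb, hl, hP'e⟩ := fs_quad hP'
  rw [hkP] at hPe
  rw [hkP'] at hP'e
  have hs : ∀ i : Fin 4, finSuccEquiv F 5 (sq4 F i) = Polynomial.C (X (Fin.castSucc i) ^ 2) := by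
    intro i
    rw [sq4, map_pow, finSuccEquiv_X_succ, map_pow]
  have key := congrArg (finSuccEquiv F 5) hcub2
  have e1 : finSuccEquiv F 5 (X 1) = Polynomial.C (X 0) := finSuccEquiv_X_succ (j := 0)
  have e2 : finSuccEquiv F 5 (X 2) = Polynomial.C (X 1) := finSuccEquiv_X_succ (j := 1)
  have e3 : finSuccEquiv F 5 (X 3) = Polynomial.C (X 2) := finSuccEquiv_X_succ (j := 2)
  have e4 : finSuccEquiv F 5 (X 4) = Polynomial.C (X 3) := finSuccEquiv_X_succ (j := 3)
  have e5 : finSuccEquiv F 5 (X 5) = Polynomial.C (X 4) := finSuccEquiv_X_succ (j := 4)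
  rw [Fin.sum_univ_six] at key
  simp only [map_add, map_mul, map_pow, e1, e2, e3, e4, e5, huv, hG] at key
  simp only [Matrix.cons_val] at key
  simp only [hs, hPe, hP'e, map_one, map_zero, zero_mul, one_mul, add_zero] at key
  have key2 : Polynomial.C (cubic F) = Polynomial.C (u 0 * X 0 ^ 2 + u 1 * X 1 ^ 2 + u 2 * X 2 ^ 2
        + u 3 * X 3 ^ 2 + u 4 * a + u 5 * b) +
      Polynomial.C (C (v 0) * X 0 ^ 2 + C (v 1) * X 1 ^ 2 + C (v 2) * X 2 ^ 2 + C (v 3) * X 3 ^ 2
        + C (v 4) * a + u 4 * m + C (v 5) * b + u 5 * l) * Polynomial.X +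
      Polynomial.C (u 4 + C (v 4) * m + C (v 5) * l) * Polynomial.X ^ 2 +
      Polynomial.C (C (v 4)) * Polynomial.X ^ 3 := by
    simp only [cubic, map_add, map_mul, map_pow]
    simp only [Fin.castSucc_zero, Fin.reduceCastSucc, map_pow] at key
    rw [key]
    ring
  obtain ⟨k0, k1, k2, k3⟩ := four_coeffs key2
  have hmemS : ∀ x0 x1 x2 x3 : MvPolynomial (Fin 5) F,
      x0 * X 0 ^ 2 + x1 * X 1 ^ 2 + x2 * X 2 ^ 2 + x3 * X 3 ^ 2 ∈ sqI F := by
    intro x0 x1 x2 x3
    have h0 : (X 0 ^ 2 : MvPolynomial (Fin 5) F) ∈ sqI F := Ideal.subset_span (by simp)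
    have h1 : (X 1 ^ 2 : MvPolynomial (Fin 5) F) ∈ sqI F := Ideal.subset_span (by simp)
    have h2 : (X 2 ^ 2 : MvPolynomial (Fin 5) F) ∈ sqI F := Ideal.subset_span (by simp)
    have h3 : (X 3 ^ 2 : MvPolynomial (Fin 5) F) ∈ sqI F := Ideal.subset_span (by simp)
    exact Ideal.add_mem _ (Ideal.add_mem _ (Ideal.add_mem _ (Ideal.mul_mem_left _ _ h0)
      (Ideal.mul_mem_left _ _ h1)) (Ideal.mul_mem_left _ _ h2)) (Ideal.mul_mem_left _ _ h3)
  rw [k3, zero_mul, add_zero] at k2
  rw [k3, zero_mul, add_zero] at k1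
  have hu4 : u 4 = - (C (v 5) * l) := by linear_combination k2
  by_cases hv5 : v 5 = 0
  · rw [hv5, map_zero, zero_mul, neg_zero] at hu4
    refine cubic_not_prod (l := u 5) (q := b) (hu 5) ?_
    rw [k0, hu4]
    convert hmemS (u 0) (u 1) (u 2) (u 3) using 1
    ring
  · have hC : (C (v 5) : MvPolynomial (Fin 5) F) * C (v 5)⁻¹ = 1 := by
      rw [← map_mul, mul_inv_cancel₀ hv5, map_one]
    refine cubic_not_prod (l := l) (q := - (C (v 5) * a) + u 5 * m - u 5 * u 5 * C (v 5)⁻¹) hl ?_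
    rw [k0]
    have hb' : b = l * m - C (v 5)⁻¹ * (u 5 * l) - C (v 5)⁻¹ *
        (C (v 0) * X 0 ^ 2 + C (v 1) * X 1 ^ 2 + C (v 2) * X 2 ^ 2 + C (v 3) * X 3 ^ 2) := by
      rw [hu4] at k1
      linear_combination (C (v 5)⁻¹) * k1 + (l * m - b) * hC
    convert hmemS (u 0 - u 5 * C (v 5)⁻¹ * C (v 0)) (u 1 - u 5 * C (v 5)⁻¹ * C (v 1))
      (u 2 - u 5 * C (v 5)⁻¹ * C (v 2)) (u 3 - u 5 * C (v 5)⁻¹ * C (v 3)) using 1
    rw [hu4]
    linear_combination (u 5) * hb'

/-! ### Linear forms -/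
/-- no linear forms with the required properties -/
lemma no_linear_forms {Q : Fin 6 → MvPolynomial (Fin 6) F} (hQ : ∀ i, (Q i).IsHomogeneous 2)
    (hbig : ∀ p : MvPolynomial (Fin 6) F, p.IsHomogeneous 7 → p ∈ Ideal.span (Set.range Q))
    {l : Fin 5 → MvPolynomial (Fin 6) F} (hl : ∀ i, (l i).IsHomogeneous 1)
    (hsq : ∀ i : Fin 4, l (Fin.castSucc i) ^ 2 ∈ Ideal.span (Set.range Q))
    (hcub : l 4 ^ 3 + l 0 * l 1 * (l 2 + l 3) ∈ Ideal.span (Set.range Q))
    (hsoc : l 0 * l 1 * l 2 * l 3 * l 4 ^ 2 ∉ Ideal.span (Set.range Q)) : False := by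
  set I := Ideal.span (Set.range Q) with hI
  have h0 : l 0 ^ 2 ∈ I := hsq 0
  have h1 : l 1 ^ 2 ∈ I := hsq 1
  have h2 : l 2 ^ 2 ∈ I := hsq 2
  have h3 : l 3 ^ 2 ∈ I := hsq 3
  have hcanc : ∀ g : F, C g * (l 0 * l 1 * l 2 * l 3 * l 4 ^ 2) ∈ I → g = 0 := by
    intro g hg
    by_contra hg0
    apply hsoc
    have := I.mul_mem_left (C g⁻¹) hg
    rwa [← mul_assoc, ← map_mul, inv_mul_cancel₀ hg0, map_one, one_mul] at this
  have hli : LinearIndependent F l := by
    rw [Fintype.linearIndependent_iff]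
    intro g hg
    rw [Fin.sum_univ_five] at hg
    simp only [smul_eq_C_mul] at hg
    have g4 : g 4 = 0 := by
      apply hcanc
      have : C (g 4) * (l 0 * l 1 * l 2 * l 3 * l 4 ^ 2) =
          (-(C (g 0) * l 1 * l 2 * l 3 * l 4)) * l 0 ^ 2 +
          (-(C (g 1) * l 0 * l 2 * l 3 * l 4)) * l 1 ^ 2 +
          (-(C (g 2) * l 0 * l 1 * l 3 * l 4)) * l 2 ^ 2 +
          (-(C (g 3) * l 0 * l 1 * l 2 * l 4)) * l 3 ^ 2 := by
        linear_combination (l 0 * l 1 * l 2 * l 3 * l 4) * hg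
      rw [this]
      exact I.add_mem (I.add_mem (I.add_mem (I.mul_mem_left _ h0) (I.mul_mem_left _ h1))
        (I.mul_mem_left _ h2)) (I.mul_mem_left _ h3)
    rw [g4, map_zero, zero_mul, add_zero] at hg
    have g0 : g 0 = 0 := by
      apply hcanc
      have : C (g 0) * (l 0 * l 1 * l 2 * l 3 * l 4 ^ 2) =
          (-(C (g 1) * l 2 * l 3 * l 4 ^ 2)) * l 1 ^ 2 +
          (-(C (g 2) * l 1 * l 3 * l 4 ^ 2)) * l 2 ^ 2 +
          (-(C (g 3) * l 1 * l 2 * l 4 ^ 2)) * l 3 ^ 2 := by
        linear_combination (l 1 * l 2 * l 3 * l 4 ^ 2) * hg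
      rw [this]
      exact I.add_mem (I.add_mem (I.mul_mem_left _ h1)
        (I.mul_mem_left _ h2)) (I.mul_mem_left _ h3)
    have g1 : g 1 = 0 := by
      apply hcanc
      have : C (g 1) * (l 0 * l 1 * l 2 * l 3 * l 4 ^ 2) =
          (-(C (g 0) * l 2 * l 3 * l 4 ^ 2)) * l 0 ^ 2 +
          (-(C (g 2) * l 0 * l 3 * l 4 ^ 2)) * l 2 ^ 2 +
          (-(C (g 3) * l 0 * l 2 * l 4 ^ 2)) * l 3 ^ 2 := by
        linear_combination (l 0 * l 2 * l 3 * l 4 ^ 2) * hg
      rw [this]
      exact I.add_mem (I.add_mem (I.mul_mem_left _ h0)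
        (I.mul_mem_left _ h2)) (I.mul_mem_left _ h3)
    have g2 : g 2 = 0 := by
      apply hcanc
      have : C (g 2) * (l 0 * l 1 * l 2 * l 3 * l 4 ^ 2) =
          (-(C (g 0) * l 1 * l 3 * l 4 ^ 2)) * l 0 ^ 2 +
          (-(C (g 1) * l 0 * l 3 * l 4 ^ 2)) * l 1 ^ 2 +
          (-(C (g 3) * l 0 * l 1 * l 4 ^ 2)) * l 3 ^ 2 := by
        linear_combination (l 0 * l 1 * l 3 * l 4 ^ 2) * hg
      rw [this]
      exact I.add_mem (I.add_mem (I.mul_mem_left _ h0)
        (I.mul_mem_left _ h1)) (I.mul_mem_left _ h3)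
    have g3 : g 3 = 0 := by
      apply hcanc
      have : C (g 3) * (l 0 * l 1 * l 2 * l 3 * l 4 ^ 2) =
          (-(C (g 0) * l 1 * l 2 * l 4 ^ 2)) * l 0 ^ 2 +
          (-(C (g 1) * l 0 * l 2 * l 4 ^ 2)) * l 1 ^ 2 +
          (-(C (g 2) * l 0 * l 1 * l 4 ^ 2)) * l 2 ^ 2 := by
        linear_combination (l 0 * l 1 * l 2 * l 4 ^ 2) * hg
      rw [this]
      exact I.add_mem (I.add_mem (I.mul_mem_left _ h0)
        (I.mul_mem_left _ h1)) (I.mul_mem_left _ h2)
    intro i
    fin_cases i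
    · exact g0
    · exact g1
    · exact g2
    · exact g3
    · exact g4
  -- coefficient vectors
  have hM : ∀ i, ∃ c : Fin 6 → F, ∑ j, c j • (X j : MvPolynomial (Fin 6) F) = l i := by
    intro i
    have : l i ∈ homogeneousSubmodule (Fin 6) F 1 := hl i
    rw [homogeneousSubmodule_one_eq_span_X] at this
    exact (Submodule.mem_span_range_iff_exists_fun F).mp this
  choose M hM using hM
  have hMli : LinearIndependent F M := by
    rw [Fintype.linearIndependent_iff] at hli ⊢
    intro g hg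
    apply hli
    have : ∀ j, ∑ i, g i * M i j = 0 := by
      intro j
      have := congrFun hg j
      simpa using this
    calc ∑ i, g i • l i = ∑ i, g i • ∑ j, M i j • (X j : MvPolynomial (Fin 6) F) := by
          simp only [hM]
      _ = ∑ j, (∑ i, g i * M i j) • (X j : MvPolynomial (Fin 6) F) := by
          simp only [Finset.smul_sum, Finset.sum_smul, smul_smul]
          rw [Finset.sum_comm]
      _ = 0 := by simp only [this, zero_smul, Finset.sum_const_zero]
  obtain ⟨v, hv⟩ : ∃ v : Fin 6 → F, v ∉ Submodule.span F (Set.range M) := by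
    by_contra hcon
    push Not at hcon
    have htop : Submodule.span F (Set.range M) = ⊤ := by
      rw [eq_top_iff]; intro x _; exact hcon x
    have := finrank_span_eq_card hMli
    rw [htop, finrank_top] at this
    simp at this
  have hli6 : LinearIndependent F (Fin.cons v M : Fin 6 → (Fin 6 → F)) :=
    linearIndependent_finCons.mpr ⟨hMli, hv⟩
  set A : Matrix (Fin 6) (Fin 6) F := Matrix.of (Fin.cons v M : Fin 6 → (Fin 6 → F)) with hA
  have hAu : IsUnit A := Matrix.linearIndependent_rows_iff_isUnit.mp hli6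
  have hAinv : A * A⁻¹ = 1 := Matrix.mul_nonsing_inv A ((Matrix.isUnit_iff_isUnit_det A).mp hAu)
  set θ : MvPolynomial (Fin 6) F →ₐ[F] MvPolynomial (Fin 6) F :=
    aeval (fun j => ∑ k, A⁻¹ j k • (X k : MvPolynomial (Fin 6) F)) with hθ
  have hθA : ∀ i, θ (∑ j, A i j • (X j : MvPolynomial (Fin 6) F)) = X i := by
    intro i
    simp only [map_sum, map_smul, hθ, aeval_X, Finset.smul_sum, smul_smul]
    rw [Finset.sum_comm]
    simp only [← Finset.sum_smul]
    have : ∀ k, ∑ j, A i j * A⁻¹ j k = (1 : Matrix (Fin 6) (Fin 6) F) i k := by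
      intro k
      rw [← hAinv, Matrix.mul_apply]
    simp only [this, Matrix.one_apply, ite_smul, one_smul, zero_smul, Finset.sum_ite_eq,
      Finset.mem_univ, if_true]
  have hθl : ∀ i : Fin 5, θ (l i) = X i.succ := by
    intro i
    rw [← hM i]
    exact hθA i.succ
  have hθlin : ∀ j, (∑ k, A⁻¹ j k • (X k : MvPolynomial (Fin 6) F)).IsHomogeneous 1 := by
    intro j
    apply IsHomogeneous.sum
    intro k _
    exact (homogeneousSubmodule (Fin 6) F 1).smul_mem _ (isHomogeneous_X F k)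
  have hθI : ∀ p ∈ I, θ p ∈ Ideal.span (Set.range (fun j => θ (Q j))) := by
    intro p hp
    have := Ideal.mem_map_of_mem (θ : MvPolynomial (Fin 6) F →+* MvPolynomial (Fin 6) F) hp
    rw [hI, Ideal.map_span, ← Set.range_comp] at this
    exact this
  refine no_quadrics (Q := fun j => θ (Q j)) ?_ ?_ ?_ ?_
  · intro i
    have := (hQ i).aeval (fun j => ∑ k, A⁻¹ j k • (X k : MvPolynomial (Fin 6) F)) hθlin
    rw [one_mul] at this
    exact this
  · intro i
    have := hθI _ (hsq i)
    rw [map_pow, hθl] at this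
    exact this
  · have := hθI _ hcub
    simp only [map_add, map_mul, map_pow, hθl] at this
    exact this
  · have h7 : ((∑ j, A 0 j • (X j : MvPolynomial (Fin 6) F)) ^ 7).IsHomogeneous 7 := by
      have h1 : (∑ j, A 0 j • (X j : MvPolynomial (Fin 6) F)).IsHomogeneous 1 := by
        apply IsHomogeneous.sum
        intro k _
        exact (homogeneousSubmodule (Fin 6) F 1).smul_mem _ (isHomogeneous_X F k)
      simpa using h1.pow 7
    have := hθI _ (hbig _ h7)
    rw [map_pow, hθA] at this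
    exact this

/-! ### Passing to linear parts -/
lemma sum_hc_range {σ : Type*} (p : MvPolynomial σ F) {M : ℕ} (hM : p.totalDegree < M) :
    ∑ i ∈ Finset.range M, homogeneousComponent i p = p := by
  conv_rhs => rw [← sum_homogeneousComponent p]
  symm
  apply Finset.sum_subset
  · intro i hi
    simp only [Finset.mem_range] at hi ⊢
    omega
  · intro i _ hi
    simp only [Finset.mem_range, not_lt] at hi
    exact homogeneousComponent_eq_zero _ _ (by omega)

lemma hc_mul_gen {σ : Type*} (p q : MvPolynomial σ F) (n : ℕ) :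
    homogeneousComponent n (p * q) =
      ∑ i ∈ Finset.range (n + 1), homogeneousComponent i p * homogeneousComponent (n - i) q := by
  set M := p.totalDegree + n + 2 with hM
  conv_lhs => rw [← sum_hc_range p (M := M) (by omega), Finset.sum_mul, map_sum]
  symm
  rw [← Finset.sum_subset (s₁ := Finset.range (n + 1)) (s₂ := Finset.range M)]
  · refine Finset.sum_congr rfl fun i hi => ?_
    simp only [Finset.mem_range] at hi
    have h := hc_mul (q := homogeneousComponent i p) (b := q) (homogeneousComponent_isHomogeneous i p) (n - i)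
    rw [show n - i + i = n by omega] at h
    exact h.symm
  · intro i hi
    simp only [Finset.mem_range] at hi ⊢
    omega
  · intro i _ hi
    simp only [Finset.mem_range, not_lt] at hi
    exact hc_mul_lt (homogeneousComponent_isHomogeneous i p) (by omega)

/-- `u` has no component of degree `< a` and `u'` is its component of degree `a` -/
def Lead {σ : Type*} (p : MvPolynomial σ F) (a : ℕ) (p' : MvPolynomial σ F) : Prop :=
  (∀ k < a, homogeneousComponent k p = 0) ∧ homogeneousComponent a p = p'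

lemma Lead.mul {σ : Type*} {p q p' q' : MvPolynomial σ F} {a b : ℕ} (hp : Lead p a p')
    (hq : Lead q b q') : Lead (p * q) (a + b) (p' * q') := by
  constructor
  · intro k hk
    rw [hc_mul_gen]
    apply Finset.sum_eq_zero
    intro i hi
    simp only [Finset.mem_range] at hi
    rcases lt_or_ge i a with h | h
    · rw [hp.1 i h, zero_mul]
    · rw [hq.1 (k - i) (by omega), mul_zero]
  · rw [hc_mul_gen, Finset.sum_eq_single a]
    · rw [hp.2, Nat.add_sub_cancel_left, hq.2]
    · intro i hi hne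
      simp only [Finset.mem_range] at hi
      rcases lt_or_gt_of_ne hne with h | h
      · rw [hp.1 i h, zero_mul]
      · rw [hq.1 _ (by omega), mul_zero]
    · intro h
      simp only [Finset.mem_range, not_lt] at h
      omega

lemma Lead.add {σ : Type*} {p q p' q' : MvPolynomial σ F} {a : ℕ} (hp : Lead p a p')
    (hq : Lead q a q') : Lead (p + q) a (p' + q') := by
  constructor
  · intro k hk
    rw [map_add, hp.1 k hk, hq.1 k hk, add_zero]
  · rw [map_add, hp.2, hq.2]

lemma Lead.pow {σ : Type*} {p p' : MvPolynomial σ F} (hp : Lead p 1 p') (n : ℕ) :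
    Lead (p ^ n) n (p' ^ n) := by
  induction n with
  | zero =>
    constructor
    · intro k hk; omega
    · rw [pow_zero, pow_zero]
      exact hc_self (isHomogeneous_one _ _)
  | succ n ih =>
    rw [pow_succ, pow_succ]
    exact ih.mul hp


/-- passing to linear parts -/
lemma no_elements {Q : Fin 6 → MvPolynomial (Fin 6) F} (hQ : ∀ i, (Q i).IsHomogeneous 2)
    (hbig : ∀ n, 6 < n → ∀ p : MvPolynomial (Fin 6) F, p.IsHomogeneous n → p ∈ Ideal.span (Set.range Q))
    {p : Fin 5 → MvPolynomial (Fin 6) F}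
    (hsq : ∀ i : Fin 4, p (Fin.castSucc i) ^ 2 ∈ Ideal.span (Set.range Q))
    (hcub : p 4 ^ 3 + p 0 * p 1 * (p 2 + p 3) ∈ Ideal.span (Set.range Q))
    (hsoc : p 0 * p 1 * p 2 * p 3 * p 4 ^ 2 ∉ Ideal.span (Set.range Q)) : False := by
  set I := Ideal.span (Set.range Q) with hI
  have hIh : I.IsHomogeneous (homogeneousSubmodule (Fin 6) F) := by
    apply Ideal.homogeneous_span
    rintro _ ⟨i, rfl⟩
    exact ⟨2, hQ i⟩
  have hIc : ∀ x ∈ I, constantCoeff x = 0 := by
    have : I ≤ RingHom.ker (constantCoeff : MvPolynomial (Fin 6) F →+* F) := by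
      rw [hI, Ideal.span_le]
      rintro _ ⟨i, rfl⟩
      rw [SetLike.mem_coe, RingHom.mem_ker, constantCoeff_eq]
      exact (hQ i).coeff_eq_zero (by simp)
    exact fun x hx => this hx
  have hc4 : ∀ i : Fin 4, constantCoeff (p (Fin.castSucc i)) = 0 := by
    intro i
    have := hIc _ (hsq i)
    rw [map_pow] at this
    exact pow_eq_zero_iff (two_ne_zero) |>.mp this
  have c0 : constantCoeff (p 0) = 0 := hc4 0
  have c1 : constantCoeff (p 1) = 0 := hc4 1
  have c2 : constantCoeff (p 2) = 0 := hc4 2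
  have c3 : constantCoeff (p 3) = 0 := hc4 3
  have c4 : constantCoeff (p 4) = 0 := by
    have := hIc _ hcub
    rw [map_add, map_mul, map_mul, c0, zero_mul, zero_mul, add_zero, map_pow] at this
    exact pow_eq_zero_iff (three_ne_zero) |>.mp this
  have hc : ∀ i, constantCoeff (p i) = 0 := by
    intro i
    fin_cases i
    · exact c0
    · exact c1
    · exact c2
    · exact c3
    · exact c4
  set l : Fin 5 → MvPolynomial (Fin 6) F := fun i => homogeneousComponent 1 (p i) with hl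
  have hlead : ∀ i, Lead (p i) 1 (l i) := by
    intro i
    refine ⟨fun k hk => ?_, rfl⟩
    have : k = 0 := by omega
    rw [this, homogeneousComponent_zero, ← constantCoeff_eq, hc i, map_zero]
  refine no_linear_forms hQ (fun q hq => hbig 7 (by norm_num) q hq) (l := l)
    (fun i => homogeneousComponent_isHomogeneous _ _) ?_ ?_ ?_
  · intro i
    rw [← ((hlead (Fin.castSucc i)).pow 2).2]
    exact homogeneousComponent_mem_of_mem hIh (hsq i) _
  · have h := ((hlead 4).pow 3).add (((hlead 0).mul (hlead 1)).mul ((hlead 2).add (hlead 3)))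
    rw [← h.2]
    exact homogeneousComponent_mem_of_mem hIh hcub _
  · intro hmem
    apply hsoc
    have h := ((((hlead 0).mul (hlead 1)).mul (hlead 2)).mul (hlead 3)).mul ((hlead 4).pow 2)
    rw [mem_iff_homogeneousComponent_mem hIh]
    intro n
    rcases lt_trichotomy n 6 with hn | hn | hn
    · rw [h.1 n hn]; exact I.zero_mem
    · rw [hn, h.2]; exact hmem
    · exact hbig n hn _ (homogeneousComponent_isHomogeneous _ _)

/-! ### The counterexample -/
lemma fam_homog : ∀ i, (family F i).IsHomogeneous (![2, 2, 2, 2, 3] i) := by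
  intro i
  fin_cases i
  · exact isHomogeneous_X_pow _ _
  · exact isHomogeneous_X_pow _ _
  · exact isHomogeneous_X_pow _ _
  · exact isHomogeneous_X_pow _ _
  · apply IsHomogeneous.add
    · exact isHomogeneous_X_pow _ _
    · exact ((isHomogeneous_X _ _).mul (isHomogeneous_X _ _)).mul
        ((isHomogeneous_X _ _).add (isHomogeneous_X _ _))

lemma fam_sq : ∀ i (h : i < 5), i < 4 → ext0 (family F) i = X ⟨i, h⟩ ^ 2 := by
  intro i h hi
  rw [ext0_of_lt _ h]
  have : i = 0 ∨ i = 1 ∨ i = 2 ∨ i = 3 := by omega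
  rcases this with rfl | rfl | rfl | rfl <;> rfl

lemma mem_J {p : MvPolynomial (Fin 5) F} :
    p ∈ idl (ext0 (family F)) 4 ↔ ∀ m ∈ p.support, ∃ i : Fin 5, (i : ℕ) < 4 ∧ 2 ≤ m i :=
  mem_idl_sq (by norm_num) fam_sq

/-- multiplication by the cubic and top coefficients -/
lemma top_coeff {p : MvPolynomial (Fin 5) F} (hp : p ∉ idl (ext0 (family F)) 4) :
    ∃ m : Fin 5 →₀ ℕ, (∀ i : Fin 5, (i : ℕ) < 4 → m i < 2) ∧ 3 ≤ m 4 ∧
      coeff m (cubic F * p) ≠ 0 := by
  rw [mem_J] at hp
  push Not at hp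
  obtain ⟨m0, hm0, hm0'⟩ := hp
  set S := p.support.filter (fun m => ∀ i : Fin 5, (i : ℕ) < 4 → m i < 2) with hS
  have hne : S.Nonempty := ⟨m0, by rw [hS, Finset.mem_filter]; exact ⟨hm0, hm0'⟩⟩
  obtain ⟨m, hmS, hmax⟩ := Finset.exists_max_image S (fun m => m 4) hne
  rw [hS, Finset.mem_filter] at hmS
  obtain ⟨hm, hm'⟩ := hmS
  refine ⟨m + Finsupp.single 4 3, ?_, ?_, ?_⟩
  · intro i hi
    have hne : i ≠ 4 := by rintro rfl; exact absurd hi (by decide)
    simpa [Finsupp.single_apply, hne.symm] using hm' i hi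
  · simp
  · have hz : ∀ n : Fin 5 →₀ ℕ, n 4 = 0 → coeff (m + Finsupp.single 4 3) (monomial n (1 : F) * p) = 0 := by
      intro n hn
      rw [coeff_monomial_mul']
      split_ifs with hle
      · rw [one_mul]
        by_contra hcon
        have hmem : m + Finsupp.single 4 3 - n ∈ S := by
          rw [hS, Finset.mem_filter, mem_support_iff]
          refine ⟨hcon, fun i hi => ?_⟩
          have hne : i ≠ 4 := by rintro rfl; exact absurd hi (by decide)
          have := hm' i hi
          simp [Finsupp.single_apply, hne.symm]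
          omega
        have := hmax _ hmem
        simp [hn] at this
      · rfl
    have e : cubic F * p = monomial (Finsupp.single 4 3) (1 : F) * p +
        monomial (Finsupp.single 0 1 + Finsupp.single 1 1 + Finsupp.single 2 1) (1 : F) * p +
        monomial (Finsupp.single 0 1 + Finsupp.single 1 1 + Finsupp.single 3 1) (1 : F) * p := by
      rw [cubic, X_pow_eq_monomial]
      have e1 : ∀ i : Fin 5, (monomial (Finsupp.single 0 1 + Finsupp.single 1 1 + Finsupp.single i 1) (1 : F)) =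
          X 0 * X 1 * X i := by
        intro i
        simp only [X, monomial_mul, one_mul]
      rw [e1, e1]
      ring
    rw [e, coeff_add, coeff_add,
      hz (Finsupp.single 0 1 + Finsupp.single 1 1 + Finsupp.single 2 1) (by simp),
      hz (Finsupp.single 0 1 + Finsupp.single 1 1 + Finsupp.single 3 1) (by simp), add_zero, add_zero,
      coeff_monomial_mul', if_pos (by simp), one_mul, add_tsub_cancel_right]
    exact mem_support_iff.mp hm

lemma fam_regular : RingTheory.Sequence.IsRegular (MvPolynomial (Fin 5) F) (List.ofFn (family F)) := by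
  rw [isRegular_iff_idl]
  constructor
  · intro k hk p hp
    rcases Nat.lt_succ_iff_lt_or_eq.mp hk with h | h
    · exact sq_reg hk (fun i h' hi => fam_sq i h' (by omega)) p hp
    · subst h
      by_contra hcon
      obtain ⟨m, hm1, hm2, hm3⟩ := top_coeff hcon
      have h4 : ext0 (family F) 4 = cubic F := by
        rw [ext0_of_lt _ (by norm_num)]; rfl
      rw [h4, mem_J] at hp
      obtain ⟨i, hi, hi2⟩ := hp m (mem_support_iff.mpr hm3)
      exact absurd (hm1 i hi) (by omega)
  · rw [idl_ext0]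
    intro htop
    have h1 : (1 : MvPolynomial (Fin 5) F) ∈ Ideal.span (Set.range (family F)) := by
      rw [htop]; trivial
    have h2 : Ideal.span (Set.range (family F)) ≤
        RingHom.ker (constantCoeff : MvPolynomial (Fin 5) F →+* F) := by
      rw [Ideal.span_le]
      rintro _ ⟨i, rfl⟩
      rw [SetLike.mem_coe, RingHom.mem_ker, constantCoeff_eq]
      apply (fam_homog i).coeff_eq_zero
      fin_cases i <;> simp
    have h3 := h2 h1
    simp at h3

lemma fam_span : Ideal.span (Set.range (family F)) = idl (ext0 (family F)) 4 ⊔ Ideal.span {cubic F} := by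
  have h4 : ext0 (family F) 4 = cubic F := by
    rw [ext0_of_lt _ (by norm_num)]; rfl
  rw [← idl_ext0, idl_succ, h4]

lemma fam_socle : (X 0 * X 1 * X 2 * X 3 * X 4 ^ 2 : MvPolynomial (Fin 5) F) ∉
    Ideal.span (Set.range (family F)) := by
  intro h
  rw [fam_span, Submodule.mem_sup] at h
  obtain ⟨s, hs, y, hy, hsy⟩ := h
  rw [Ideal.mem_span_singleton'] at hy
  obtain ⟨c, rfl⟩ := hy
  set n : Fin 5 →₀ ℕ := Finsupp.single 0 1 + Finsupp.single 1 1 + Finsupp.single 2 1 +
    Finsupp.single 3 1 + Finsupp.single 4 2 with hn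
  have hmon : (X 0 * X 1 * X 2 * X 3 * X 4 ^ 2 : MvPolynomial (Fin 5) F) = monomial n 1 := by
    rw [X_pow_eq_monomial]
    simp only [X, monomial_mul, one_mul, hn]
  by_cases hc : c ∈ idl (ext0 (family F)) 4
  · have h1 : (X 0 * X 1 * X 2 * X 3 * X 4 ^ 2 : MvPolynomial (Fin 5) F) ∈ idl (ext0 (family F)) 4 := by
      rw [← hsy]
      exact Ideal.add_mem _ hs (Ideal.mul_mem_right _ _ hc)
    rw [hmon, mem_J] at h1
    obtain ⟨i, hi, hi2⟩ := h1 n (by rw [mem_support_iff, coeff_monomial, if_pos rfl]; exact one_ne_zero)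
    have : ∀ i : Fin 5, (i : ℕ) < 4 → n i < 2 := by
      intro i hi
      fin_cases i
      · simp [hn]
      · simp [hn]
      · simp [hn]
      · simp [hn]
      · simp at hi
    exact absurd (this i hi) (by omega)
  · obtain ⟨m, hm1, hm2, hm3⟩ := top_coeff hc
    have h1 : cubic F * c - X 0 * X 1 * X 2 * X 3 * X 4 ^ 2 ∈ idl (ext0 (family F)) 4 := by
      have : cubic F * c - X 0 * X 1 * X 2 * X 3 * X 4 ^ 2 = - s := by
        rw [← hsy]; ring
      rw [this]
      exact Ideal.neg_mem_iff _ |>.mpr hs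
    rw [mem_J] at h1
    have hne : n ≠ m := by
      intro h
      rw [← h] at hm2
      simp [hn] at hm2
    obtain ⟨i, hi, hi2⟩ := h1 m (by
      rw [mem_support_iff, coeff_sub, hmon, coeff_monomial, if_neg hne, sub_zero]
      exact hm3)
    exact absurd (hm1 i hi) (by omega)

lemma fam_big {n : ℕ} (hn : 6 < n) {p : MvPolynomial (Fin 5) F} (hp : p.IsHomogeneous n) :
    p ∈ Ideal.span (Set.range (family F)) := by
  set I := Ideal.span (Set.range (family F)) with hI
  have g0 : (X 0 ^ 2 : MvPolynomial (Fin 5) F) ∈ I := Ideal.subset_span ⟨0, rfl⟩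
  have g1 : (X 1 ^ 2 : MvPolynomial (Fin 5) F) ∈ I := Ideal.subset_span ⟨1, rfl⟩
  have g2 : (X 2 ^ 2 : MvPolynomial (Fin 5) F) ∈ I := Ideal.subset_span ⟨2, rfl⟩
  have g3 : (X 3 ^ 2 : MvPolynomial (Fin 5) F) ∈ I := Ideal.subset_span ⟨3, rfl⟩
  have g4 : (X 4 ^ 3 + X 0 * X 1 * (X 2 + X 3) : MvPolynomial (Fin 5) F) ∈ I :=
    Ideal.subset_span ⟨4, rfl⟩
  have k0 : (X 0 * X 4 ^ 3 : MvPolynomial (Fin 5) F) ∈ I := by
    have : (X 0 * X 4 ^ 3 : MvPolynomial (Fin 5) F) = X 0 * (X 4 ^ 3 + X 0 * X 1 * (X 2 + X 3))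
      + (- (X 1 * (X 2 + X 3))) * X 0 ^ 2 := by ring
    rw [this]
    exact I.add_mem (I.mul_mem_left _ g4) (I.mul_mem_left _ g0)
  have k1 : (X 1 * X 4 ^ 3 : MvPolynomial (Fin 5) F) ∈ I := by
    have : (X 1 * X 4 ^ 3 : MvPolynomial (Fin 5) F) = X 1 * (X 4 ^ 3 + X 0 * X 1 * (X 2 + X 3))
      + (- (X 0 * (X 2 + X 3))) * X 1 ^ 2 := by ring
    rw [this]
    exact I.add_mem (I.mul_mem_left _ g4) (I.mul_mem_left _ g1)
  have k2 : (X 2 * X 3 * X 4 ^ 3 : MvPolynomial (Fin 5) F) ∈ I := by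
    have : (X 2 * X 3 * X 4 ^ 3 : MvPolynomial (Fin 5) F) =
      X 2 * X 3 * (X 4 ^ 3 + X 0 * X 1 * (X 2 + X 3))
      + ((- (X 0 * X 1 * X 3)) * X 2 ^ 2 + (- (X 0 * X 1 * X 2)) * X 3 ^ 2) := by ring
    rw [this]
    exact I.add_mem (I.mul_mem_left _ g4) (I.add_mem (I.mul_mem_left _ g2) (I.mul_mem_left _ g3))
  have k3 : (X 4 ^ 6 : MvPolynomial (Fin 5) F) ∈ I := by
    have : (X 4 ^ 6 : MvPolynomial (Fin 5) F) =
      (X 4 ^ 3 - X 0 * X 1 * (X 2 + X 3)) * (X 4 ^ 3 + X 0 * X 1 * (X 2 + X 3))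
      + (X 1 ^ 2 * (X 2 + X 3) ^ 2) * X 0 ^ 2 := by ring
    rw [this]
    exact I.add_mem (I.mul_mem_left _ g4) (I.mul_mem_left _ g0)
  rw [p.as_sum]
  apply I.sum_mem
  intro m hm
  have hdeg : m.degree = n := by
    by_contra hne
    rw [mem_support_iff] at hm
    exact hm (hp.coeff_eq_zero hne)
  rw [Finsupp.degree_eq_sum, Fin.sum_univ_five] at hdeg
  have hmono : monomial m (coeff m p) = C (coeff m p) * (X 0 ^ m 0 * X 1 ^ m 1 * X 2 ^ m 2 *
      X 3 ^ m 3 * X 4 ^ m 4) := by
    rw [monomial_eq, Finsupp.prod_fintype _ _ (by simp), Fin.prod_univ_five]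
  rw [hmono]
  apply I.mul_mem_left
  have split : ∀ (i : Fin 5) {a b : ℕ} (h : a ≤ b), (X i ^ b : MvPolynomial (Fin 5) F) = X i ^ a * X i ^ (b - a) := by
    intro i a b h
    rw [← pow_add]; congr 1; omega
  by_cases h0 : 2 ≤ m 0
  · rw [split 0 h0]
    have : (X 0 ^ 2 * X 0 ^ (m 0 - 2) * X 1 ^ m 1 * X 2 ^ m 2 * X 3 ^ m 3 * X 4 ^ m 4 : MvPolynomial (Fin 5) F)
      = (X 0 ^ (m 0 - 2) * X 1 ^ m 1 * X 2 ^ m 2 * X 3 ^ m 3 * X 4 ^ m 4) * X 0 ^ 2 := by ring
    rw [this]; exact I.mul_mem_left _ g0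
  by_cases h1 : 2 ≤ m 1
  · rw [split 1 h1]
    have : (X 0 ^ m 0 * (X 1 ^ 2 * X 1 ^ (m 1 - 2)) * X 2 ^ m 2 * X 3 ^ m 3 * X 4 ^ m 4 : MvPolynomial (Fin 5) F)
      = (X 0 ^ m 0 * X 1 ^ (m 1 - 2) * X 2 ^ m 2 * X 3 ^ m 3 * X 4 ^ m 4) * X 1 ^ 2 := by ring
    rw [this]; exact I.mul_mem_left _ g1
  by_cases h2 : 2 ≤ m 2
  · rw [split 2 h2]
    have : (X 0 ^ m 0 * X 1 ^ m 1 * (X 2 ^ 2 * X 2 ^ (m 2 - 2)) * X 3 ^ m 3 * X 4 ^ m 4 : MvPolynomial (Fin 5) F)
      = (X 0 ^ m 0 * X 1 ^ m 1 * X 2 ^ (m 2 - 2) * X 3 ^ m 3 * X 4 ^ m 4) * X 2 ^ 2 := by ring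
    rw [this]; exact I.mul_mem_left _ g2
  by_cases h3 : 2 ≤ m 3
  · rw [split 3 h3]
    have : (X 0 ^ m 0 * X 1 ^ m 1 * X 2 ^ m 2 * (X 3 ^ 2 * X 3 ^ (m 3 - 2)) * X 4 ^ m 4 : MvPolynomial (Fin 5) F)
      = (X 0 ^ m 0 * X 1 ^ m 1 * X 2 ^ m 2 * X 3 ^ (m 3 - 2) * X 4 ^ m 4) * X 3 ^ 2 := by ring
    rw [this]; exact I.mul_mem_left _ g3
  have h4 : 3 ≤ m 4 := by omega
  rw [split 4 h4]
  by_cases h5 : 1 ≤ m 0
  · rw [split 0 h5]
    have : (X 0 ^ 1 * X 0 ^ (m 0 - 1) * X 1 ^ m 1 * X 2 ^ m 2 * X 3 ^ m 3 * (X 4 ^ 3 * X 4 ^ (m 4 - 3)) : MvPolynomial (Fin 5) F)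
      = (X 0 ^ (m 0 - 1) * X 1 ^ m 1 * X 2 ^ m 2 * X 3 ^ m 3 * X 4 ^ (m 4 - 3)) * (X 0 * X 4 ^ 3) := by ring
    rw [this]; exact I.mul_mem_left _ k0
  by_cases h6 : 1 ≤ m 1
  · rw [split 1 h6]
    have : (X 0 ^ m 0 * (X 1 ^ 1 * X 1 ^ (m 1 - 1)) * X 2 ^ m 2 * X 3 ^ m 3 * (X 4 ^ 3 * X 4 ^ (m 4 - 3)) : MvPolynomial (Fin 5) F)
      = (X 0 ^ m 0 * X 1 ^ (m 1 - 1) * X 2 ^ m 2 * X 3 ^ m 3 * X 4 ^ (m 4 - 3)) * (X 1 * X 4 ^ 3) := by ring
    rw [this]; exact I.mul_mem_left _ k1
  by_cases h7 : 6 ≤ m 4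
  · rw [← split 4 h4, split 4 h7]
    have : (X 0 ^ m 0 * X 1 ^ m 1 * X 2 ^ m 2 * X 3 ^ m 3 * (X 4 ^ 6 * X 4 ^ (m 4 - 6)) : MvPolynomial (Fin 5) F)
      = (X 0 ^ m 0 * X 1 ^ m 1 * X 2 ^ m 2 * X 3 ^ m 3 * X 4 ^ (m 4 - 6)) * (X 4 ^ 6) := by ring
    rw [this]; exact I.mul_mem_left _ k3
  have h8 : m 2 = 1 := by omega
  have h9 : m 3 = 1 := by omega
  rw [h8, h9]
  have : (X 0 ^ m 0 * X 1 ^ m 1 * X 2 ^ 1 * X 3 ^ 1 * (X 4 ^ 3 * X 4 ^ (m 4 - 3)) : MvPolynomial (Fin 5) F)
      = (X 0 ^ m 0 * X 1 ^ m 1 * X 4 ^ (m 4 - 3)) * (X 2 * X 3 * X 4 ^ 3) := by ring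
  rw [this]; exact I.mul_mem_left _ k2

lemma fam_finite : Module.Finite F (MvPolynomial (Fin 5) F ⧸ Ideal.span (Set.range (family F))) := by
  set I := Ideal.span (Set.range (family F)) with hI
  set S : Submodule F (MvPolynomial (Fin 5) F) :=
    ⨆ n ∈ Finset.range 7, homogeneousSubmodule (Fin 5) F n with hS
  have hSfg : S.FG := Submodule.fg_biSup _ _ fun n _ => homogeneousSubmodule_fg (σ := Fin 5) (R := F) n
  have hmap : Submodule.map (Ideal.Quotient.mkₐ F I).toLinearMap S = ⊤ := by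
    rw [eq_top_iff]
    intro y _
    obtain ⟨p, rfl⟩ := Ideal.Quotient.mkₐ_surjective F I y
    refine ⟨∑ n ∈ Finset.range 7, homogeneousComponent n p, ?_, ?_⟩
    · apply Submodule.sum_mem
      intro n hn
      exact Submodule.mem_iSup_of_mem n (Submodule.mem_iSup_of_mem hn
        (homogeneousComponent_isHomogeneous n p))
    · have h2 : p = ∑ n ∈ Finset.range 7, homogeneousComponent n p +
          ∑ n ∈ Finset.Ico 7 (p.totalDegree + 8), homogeneousComponent n p := by
        conv_lhs => rw [← sum_hc_range p (M := p.totalDegree + 8) (by omega)]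
        exact (Finset.sum_range_add_sum_Ico _ (by omega)).symm
      have h3 : p - ∑ n ∈ Finset.range 7, homogeneousComponent n p ∈ I := by
        have h4 : p - ∑ n ∈ Finset.range 7, homogeneousComponent n p =
            ∑ n ∈ Finset.Ico 7 (p.totalDegree + 8), homogeneousComponent n p :=
          sub_eq_iff_eq_add'.mpr h2
        rw [h4]
        apply I.sum_mem
        intro n hn
        rw [Finset.mem_Ico] at hn
        exact fam_big (by omega) (homogeneousComponent_isHomogeneous n p)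
      rw [AlgHom.toLinearMap_apply, Ideal.Quotient.mkₐ_eq_mk]
      exact (Ideal.Quotient.mk_eq_mk_iff_sub_mem _ _).mpr (by
        rw [← neg_sub]; exact I.neg_mem h3)
  rw [Module.finite_def, ← hmap]
  exact hSfg.map _

/-- **Watanabe's bold conjecture is false over every field.**  For every field `F`, the algebra
`A = F[x₀,…,x₄] / (x₀², x₁², x₂², x₃², x₄³ + x₀x₁(x₂ + x₃))` is a standard graded Artinian complete
intersection of socle degree `6`, and no standard graded Artinian complete intersection `B` over `F`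
which is cut out by quadrics (in any number `N` of variables) and has socle degree `6` admits an
injective `F`-algebra map `A → B`. -/
theorem result (F : Type u) [Field F] :
    IsGradedCI (family F) ∧ HasSocleDegree (family F) 6 ∧
      ∀ (N : ℕ) (Q : Fin N → MvPolynomial (Fin N) F), IsGradedCI Q → (∀ i, (Q i).IsHomogeneous 2) →
        HasSocleDegree Q 6 →
          ∀ φ : (MvPolynomial (Fin 5) F ⧸ Ideal.span (Set.range (family F))) →ₐ[F]
              (MvPolynomial (Fin N) F ⧸ Ideal.span (Set.range Q)),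
            ¬ Function.Injective φ := by
  refine ⟨⟨fun i => ⟨_, fam_homog i⟩, fam_regular, fam_finite⟩, ⟨?_, ?_⟩, ?_⟩
  · refine ⟨X 0 * X 1 * X 2 * X 3 * X 4 ^ 2, ?_, fam_socle⟩
    exact ((((isHomogeneous_X _ _).mul (isHomogeneous_X _ _)).mul (isHomogeneous_X _ _)).mul
      (isHomogeneous_X _ _)).mul (isHomogeneous_X_pow _ _)
  · rintro n ⟨p, hp, hpI⟩
    by_contra hn
    exact hpI (fam_big (by omega) hp)
  · intro N Q hQCI hQ hQs φ hφ
    have hci := quad_ci hQ hQCI.2.1
    have hN : N = 6 := by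
      apply le_antisymm
      · have h1 : ∃ p : MvPolynomial (Fin N) F, p.IsHomogeneous N ∧
            p ∉ Ideal.span (Set.range Q) := by
          have := (hci N).not.mpr (lt_irrefl N)
          push Not at this
          exact this
        exact hQs.2 h1
      · by_contra hlt
        obtain ⟨p, hp, hpI⟩ := hQs.1
        exact hpI ((hci 6).mpr (by omega) p hp)
    subst hN
    choose p hp using fun i : Fin 5 => Ideal.Quotient.mk_surjective
      (φ (Ideal.Quotient.mk (Ideal.span (Set.range (family F))) (X i)))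
    have hmem : ∀ P : MvPolynomial (Fin 5) F, aeval p P ∈ Ideal.span (Set.range Q) ↔
        P ∈ Ideal.span (Set.range (family F)) := by
      intro P
      have h1 : ∀ P : MvPolynomial (Fin 5) F,
          Ideal.Quotient.mk (Ideal.span (Set.range Q)) (aeval p P) =
            φ (Ideal.Quotient.mk (Ideal.span (Set.range (family F))) P) := by
        intro P
        have h2 : (Ideal.Quotient.mkₐ F (Ideal.span (Set.range Q))).comp (aeval p) =
            φ.comp (Ideal.Quotient.mkₐ F (Ideal.span (Set.range (family F)))) := by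
          apply MvPolynomial.algHom_ext
          intro i
          simpa using hp i
        exact DFunLike.congr_fun h2 P
      rw [← Ideal.Quotient.eq_zero_iff_mem, h1, ← Ideal.Quotient.eq_zero_iff_mem]
      exact map_eq_zero_iff φ hφ
    refine no_elements hQ (fun n hn q hq => (hci n).mpr hn q hq) (p := p) ?_ ?_ ?_
    · intro i
      have : (X (Fin.castSucc i) ^ 2 : MvPolynomial (Fin 5) F) ∈ Ideal.span (Set.range (family F)) := by
        apply Ideal.subset_span
        refine ⟨Fin.castSucc i, ?_⟩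
        fin_cases i <;> rfl
      simpa using (hmem _).mpr this
    · have : (X 4 ^ 3 + X 0 * X 1 * (X 2 + X 3) : MvPolynomial (Fin 5) F) ∈
          Ideal.span (Set.range (family F)) := Ideal.subset_span ⟨4, rfl⟩
      simpa using (hmem _).mpr this
    · have := (hmem (X 0 * X 1 * X 2 * X 3 * X 4 ^ 2)).not.mpr fam_socle
      simpa using this

end Pool.Agent.Results.MP_ee4e20_al.BoldConjectureFalse
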